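import Pool.Agent.Q86.FixMain

/-!
# Semigroups with an invariant mean on `WAP(S)` have the nonexpansive fixed point property (F)

The definitions are in `Pool.Agent.Q86.FixDefs`: `lt a f` is the left translate `t ↦ f (a t)`,
`IsWAP f` says that the orbit of `f` under left translations is relatively weakly compact in the
Banach space of bounded continuous functions, `IsLIM m` says that `m` is a left invariant mean on
the weakly almost periodic functions, `IsRep Q C T` says that `T` is a weakly separately continuous,
weakly quasi-equicontinuous, `Q`-nonexpansive representation of `S` on `C`, and `PropF S` is
property (F).
-/

set_option autoImplicit false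

open scoped BoundedContinuousFunction

namespace Pool.Agent.Results.MP_c68506_an.WithoutSeparability

open Pool.Agent.Q86.FixD

universe u v w

/-- Every semitopological semigroup `S` for which `WAP(S)` has a left invariant mean has property
(F); separability of `S` is not needed. -/
theorem result (S : Type u) [Semigroup S] [TopologicalSpace S] [SeparatelyContinuousMul S]
    (h : ∃ m : (S →ᵇ ℝ) → ℝ, IsLIM m) : PropF.{u, v, w} S :=
  Pool.Agent.Q86.FixMain.propF h

end Pool.Agent.Results.MP_c68506_an.WithoutSeparability
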